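import Pool.Agent.H.MP_f54a22_an.B

namespace Pool.Agent.H.MP_cc494f_an
open Set MeasureTheory Pool.Agent.H.MP_4a5b11_an

noncomputable def G (x : ℝ) : ℝ := ∑' n : ℕ, (-1 : ℝ) ^ ⌊2 ^ n * x⌋ * phi (2 ^ n * x) / 2 ^ n

theorem abs_term (x : ℝ) (n : ℕ) :
    |(-1 : ℝ) ^ ⌊2 ^ n * x⌋ * phi (2 ^ n * x) / 2 ^ n| = phi (2 ^ n * x) / 2 ^ n := by
  rw [abs_div, abs_mul, abs_zpow, abs_neg, abs_one, one_zpow, one_mul,
    abs_of_nonneg (phi_nonneg _), abs_of_pos (by positivity)]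

theorem summG (x : ℝ) :
    Summable fun n : ℕ => (-1 : ℝ) ^ ⌊2 ^ n * x⌋ * phi (2 ^ n * x) / 2 ^ n :=
  Summable.of_norm_bounded (summ x) fun n => (abs_term x n).le

theorem G_eq (x : ℝ) : G x = (-1 : ℝ) ^ ⌊x⌋ * phi x + G (2 * x) / 2 := by
  unfold G
  rw [(summG x).tsum_eq_zero_add, ← tsum_div_const]
  congr 1
  · simp
  · refine tsum_congr fun n => ?_
    rw [pow_succ, mul_assoc]; field_simp

theorem G_abs (x : ℝ) : |G x| ≤ T x := by
  exact tsum_of_norm_bounded (f := fun n : ℕ => (-1 : ℝ) ^ ⌊2 ^ n * x⌋ * phi (2 ^ n * x) / 2 ^ n)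
    (summ x).hasSum fun n => (abs_term x n).le

theorem G_add_two (x : ℝ) : G (2 + x) = G x := by
  unfold G
  refine tsum_congr fun n => ?_
  have : (2 : ℝ) ^ n * (2 + x) = 2 ^ n * x + ((2 * 2 ^ n : ℤ) : ℝ) := by push_cast; ring
  rw [this, phi_add_int, Int.floor_add_intCast, zpow_add₀ (by norm_num), zpow_mul]
  norm_num

theorem phi_lo {u : ℝ} (h0 : 0 ≤ u) (h1 : u ≤ 1) : phi (u / 2) = u / 2 :=
  phi_small (by linarith) (by linarith)

theorem phi_hi {u : ℝ} (h0 : 0 ≤ u) (h1 : u ≤ 1) : phi ((1 + u) / 2) = (1 - u) / 2 := by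
  have := phi_add_int (-((1 - u) / 2)) 1
  rw [phi_neg, phi_lo (by linarith) (by linarith)] at this
  rw [← this]; congr 1; push_cast; ring

theorem sgn_phi {t : ℝ} (h0 : 0 ≤ t) (h1 : t ≤ 1) : (-1 : ℝ) ^ ⌊t⌋ * phi t = phi t := by
  rcases h1.lt_or_eq with h | rfl
  · rw [Int.floor_eq_zero_iff.2 ⟨h0, h⟩]; simp
  · have := phi_add_int 0 1
    rw [phi_small le_rfl (by norm_num)] at this
    simp only [zero_add, Int.cast_one] at this
    rw [this]; simp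

noncomputable def F (s t : ℝ) : ℝ := s * phi t + G (2 * t) / 2

theorem F_one {t : ℝ} (h0 : 0 ≤ t) (h1 : t ≤ 1) : F 1 t = G t := by
  rw [G_eq t, sgn_phi h0 h1, F, one_mul]

theorem F_lo (s : ℝ) {u : ℝ} (h0 : 0 ≤ u) (h1 : u ≤ 1) : F s (u / 2) = s * u / 2 + F 1 u / 2 := by
  rw [F_one h0 h1, F, phi_lo h0 h1, show 2 * (u / 2) = u by ring]; ring

theorem F_hi (s : ℝ) {u : ℝ} (h0 : 0 ≤ u) (h1 : u ≤ 1) :
    F s ((1 + u) / 2) = s * (1 - u) / 2 + F (-1) u / 2 := by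
  have e1 : phi (1 + u) = phi u := by
    have := phi_add_int u 1
    rw [← this]; congr 1; push_cast; ring
  have e2 : ⌊1 + u⌋ = ⌊u⌋ + 1 := by rw [add_comm, Int.floor_add_one]
  have := sgn_phi h0 h1
  rw [F, phi_hi h0 h1, show 2 * ((1 + u) / 2) = 1 + u by ring, G_eq, e1, e2,
    zpow_add₀ (by norm_num), show 2 * (1 + u) = 2 + 2 * u by ring, G_add_two, F]
  simp only [zpow_one]
  linarith

theorem F_abs {s : ℝ} (hs : s = 1 ∨ s = -1) (t : ℝ) : |F s t| ≤ T t := by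
  have h1 := abs_le.1 (G_abs (2 * t))
  have h2 := phi_nonneg t
  rw [T_eq, F, abs_le]
  rcases hs with rfl | rfl <;> constructor <;> linarith [h1.1, h1.2]

def R (s d v : ℝ) : Set ℝ := {t | 0 ≤ t ∧ t ≤ 1 ∧ F s t + d * t = v}

theorem R_sub (s d v : ℝ) : R s d v ⊆ (fun t => t / 2) '' R 1 (d + s) (2 * v - 0) ∪
    (fun t => (1 + t) / 2) '' R (-1) (d - s) (2 * v - (d + s)) := by
  rintro t ⟨h0, h1, ht⟩
  rcases le_total t (1 / 2) with h | h
  · left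
    have e : 2 * t / 2 = t := by ring
    have := F_lo s (u := 2 * t) (by linarith) (by linarith)
    rw [e] at this
    exact ⟨2 * t, ⟨by linarith, by linarith, by linarith⟩, e⟩
  · right
    have e : (1 + (2 * t - 1)) / 2 = t := by ring
    have := F_hi s (u := 2 * t - 1) (by linarith) (by linarith)
    rw [e] at this
    exact ⟨2 * t - 1, ⟨by linarith, by linarith, by linarith⟩, e⟩

noncomputable def ep (d : ℤ) : ℝ := 2 / 3 / 2 ^ d.natAbs

theorem R_range {s : ℝ} (hs : s = 1 ∨ s = -1) (d : ℤ) {v t : ℝ} (ht : t ∈ R s d v) :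
    min (d : ℝ) 0 - ep d ≤ v ∧ v ≤ max (d : ℝ) 0 + ep d := by
  obtain ⟨h0, h1, h⟩ := ht
  have h2 := abs_le.1 (F_abs hs t)
  have h3 := T_lin d.natAbs t h0 h1
  have h4 := T_lin d.natAbs (1 - t) (by linarith) (by linarith)
  rw [T_sym] at h4
  rw [Nat.cast_natAbs, Int.cast_abs] at h3 h4
  unfold ep
  rcases le_total 0 (d : ℝ) with hd | hd
  · rw [abs_of_nonneg hd] at h3 h4
    rw [min_eq_right hd, max_eq_left hd]
    constructor <;> linarith [h2.1, h2.2]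
  · rw [abs_of_nonpos hd] at h3 h4
    rw [min_eq_left hd, max_eq_right hd]
    constructor <;> linarith [h2.1, h2.2]

end Pool.Agent.H.MP_cc494f_an
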