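import Pool.Agent.H.MP_cc494f_an.A

namespace Pool.Agent.H.MP_cc494f_an
open Set MeasureTheory Pool.Agent.H.MP_4a5b11_an
open Pool.Agent.H.MP_f54a22_an (vol_aff)

def Bad (k : ℕ) (s d : ℝ) : Set ℝ :=
  {v | ∃ a ∈ R s d v, ∃ b ∈ R s d v, (1 / 2 : ℝ) ^ k < |a - b|}

theorem Bad_zero (s d : ℝ) : Bad 0 s d = ∅ :=
  eq_empty_of_forall_notMem fun v ⟨a, ha, b, hb, h⟩ => by
    rw [pow_zero, lt_abs] at h
    rcases h with h | h <;> linarith [ha.1, ha.2.1, hb.1, hb.2.1]

theorem Bad_step (k : ℕ) (s d : ℝ) : Bad (k + 1) s d ⊆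
    ((fun v : ℝ => 2 * v - 0) ⁻¹' Bad k 1 (d + s) ∪
      (fun v : ℝ => 2 * v - (d + s)) ⁻¹' Bad k (-1) (d - s)) ∪
      {v | (R 1 (d + s) (2 * v - 0)).Nonempty ∧ (R (-1) (d - s) (2 * v - (d + s))).Nonempty} := by
  rintro v ⟨a', ha', b', hb', h⟩
  rw [pow_succ, lt_abs] at h
  rcases R_sub s d v ha' with ⟨a, ha, rfl⟩ | ⟨a, ha, rfl⟩ <;>
    rcases R_sub s d v hb' with ⟨b, hb, rfl⟩ | ⟨b, hb, rfl⟩
  · refine Or.inl (Or.inl ⟨a, ha, b, hb, ?_⟩)
    rw [lt_abs]
    simp only at h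
    rcases h with h | h
    · left; linarith
    · right; linarith
  · exact Or.inr ⟨⟨a, ha⟩, ⟨b, hb⟩⟩
  · exact Or.inr ⟨⟨b, hb⟩, ⟨a, ha⟩⟩
  · refine Or.inl (Or.inr ⟨a, ha, b, hb, ?_⟩)
    rw [lt_abs]
    simp only at h
    rcases h with h | h
    · left; linarith
    · right; linarith

noncomputable def U (n : ℕ) : ℝ := 2 + 6 * (1 - 1 / 2 ^ n)

theorem U_pos (n : ℕ) : 0 ≤ U n := by
  have : (1 : ℝ) / 2 ^ n ≤ 1 := div_le_self (by norm_num) (one_le_pow₀ (by norm_num))
  unfold U; linarith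

theorem ep_le {d : ℤ} {n : ℕ} (h : n ≤ d.natAbs) : ep d ≤ 2 / 3 / 2 ^ n := by
  unfold ep
  gcongr
  norm_num

theorem vol_Bad (k : ℕ) : ∀ s d : ℤ, s = 1 ∨ s = -1 →
    volume (Bad k s d) ≤ ENNReal.ofReal (U d.natAbs) := by
  induction k with
  | zero => intro s d _; rw [Bad_zero, measure_empty]; exact bot_le
  | succ k ih =>
    intro s d hs
    have hs' : (s : ℝ) = 1 ∨ (s : ℝ) = -1 := by rcases hs with rfl | rfl <;> simp
    rcases eq_or_ne d 0 with rfl | hd
    · have : Bad (k + 1) s (0 : ℤ) ⊆ Icc (-1) 1 := by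
        rintro v ⟨a, ha, -⟩
        have := R_range hs' 0 ha
        norm_num [ep] at this
        constructor <;> linarith [this.1, this.2]
      refine (measure_mono this).trans ?_
      rw [Real.volume_Icc]
      exact ENNReal.ofReal_le_ofReal (by norm_num [U])
    obtain ⟨n, hn⟩ : ∃ n, d.natAbs = n + 1 := ⟨d.natAbs - 1, by omega⟩
    have hov : {v : ℝ | (R 1 (d + s) (2 * v - 0)).Nonempty ∧
        (R (-1) (d - s) (2 * v - (d + s))).Nonempty} ⊆
        (fun v : ℝ => 2 * v - (d + s)) ⁻¹' Icc (-(2 / 3 / 2 ^ n)) (2 / 3 / 2 ^ n) := by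
      rintro v ⟨⟨a, ha⟩, ⟨b, hb⟩⟩
      have h1 := R_range (Or.inl rfl) (d + s) (v := 2 * v - 0) (t := a) (by push_cast; exact ha)
      have h2 := R_range (Or.inr rfl) (d - s) (v := 2 * v - (d + s)) (t := b)
        (by push_cast; exact hb)
      have h3 := ep_le (d := d + s) (n := n) (by omega)
      have h4 := ep_le (d := d - s) (n := n) (by omega)
      rcases lt_or_gt_of_ne hd with hd | hd
      · have a1 : ((d + s : ℤ) : ℝ) ≤ 0 := by exact_mod_cast (by omega : d + s ≤ 0)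
        have a2 : ((d - s : ℤ) : ℝ) ≤ 0 := by exact_mod_cast (by omega : d - s ≤ 0)
        rw [min_eq_left a1] at h1
        rw [max_eq_right a2] at h2
        push_cast at h1 h2
        constructor <;> simp only <;> linarith [h1.1, h2.2]
      · have a1 : 0 ≤ ((d + s : ℤ) : ℝ) := by exact_mod_cast (by omega : 0 ≤ d + s)
        have a2 : 0 ≤ ((d - s : ℤ) : ℝ) := by exact_mod_cast (by omega : 0 ≤ d - s)
        rw [max_eq_left a1] at h1
        rw [min_eq_right a2] at h2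
        push_cast at h1 h2
        constructor <;> simp only <;> linarith [h1.2, h2.1]
    have i1 := ih 1 (d + s) (Or.inl rfl)
    have i2 := ih (-1) (d - s) (Or.inr rfl)
    push_cast at i1 i2
    refine (measure_mono (Bad_step k s d)).trans ((measure_union_le _ _).trans ?_)
    refine (add_le_add (measure_union_le _ _) (measure_mono hov)).trans ?_
    rw [vol_aff, vol_aff, vol_aff, Real.volume_Icc]
    refine (add_le_add (add_le_add (mul_le_mul_right i1 _) (mul_le_mul_right i2 _))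
      le_rfl).trans ?_
    have h1 := U_pos (d + s).natAbs
    have h2 := U_pos (d - s).natAbs
    have h3 : (0 : ℝ) ≤ 2 / 3 / 2 ^ n - -(2 / 3 / 2 ^ n) := by
      have : (0 : ℝ) ≤ 2 / 3 / 2 ^ n := by positivity
      linarith
    rw [← ENNReal.ofReal_mul (by norm_num), ← ENNReal.ofReal_mul (by norm_num),
      ← ENNReal.ofReal_mul (by norm_num), ← ENNReal.ofReal_add (by positivity) (by positivity),
      ← ENNReal.ofReal_add (by positivity) (by positivity)]
    refine ENNReal.ofReal_le_ofReal ?_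
    have hc : ((d + s).natAbs = n + 2 ∧ (d - s).natAbs = n) ∨
      ((d + s).natAbs = n ∧ (d - s).natAbs = n + 2) := by omega
    have e : ∀ j : ℕ, (1 : ℝ) / 2 ^ (n + j) = 1 / 2 ^ n / 2 ^ j := fun j => by
      rw [pow_add]; field_simp
    have e' : (2 / 3 / 2 ^ n : ℝ) = 2 / 3 * (1 / 2 ^ n) := by field_simp
    have e'' : (0 : ℝ) ≤ 1 / 2 ^ n := by positivity
    rcases hc with ⟨c1, c2⟩ | ⟨c1, c2⟩ <;> rw [c1, c2, hn] <;> simp only [U, e, e'] <;> linarith

def I (s d : ℝ) : Set ℝ := {v | (R s d v).Infinite}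

theorem vol_I (s d : ℤ) (hs : s = 1 ∨ s = -1) : volume (I s d) ≤ 8 := by
  have hm : Monotone fun k => Bad k s d := by
    refine monotone_nat_of_le_succ fun k v ⟨a, ha, b, hb, h⟩ =>
      ⟨a, ha, b, hb, lt_of_le_of_lt ?_ h⟩
    exact pow_le_pow_of_le_one (by norm_num) (by norm_num) (Nat.le_succ k)
  have hsub : I s d ⊆ ⋃ k, Bad k s d := by
    intro v hv
    obtain ⟨a, ha, b, hb, hne⟩ := hv.nontrivial
    obtain ⟨k, hk⟩ := exists_pow_lt_of_lt_one (abs_pos.2 (sub_ne_zero.2 hne))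
      (show (1 / 2 : ℝ) < 1 by norm_num)
    exact mem_iUnion.2 ⟨k, a, ha, b, hb, hk⟩
  refine (measure_mono hsub).trans ?_
  rw [hm.measure_iUnion]
  refine iSup_le fun k => (vol_Bad k s d hs).trans ?_
  rw [← ENNReal.ofReal_ofNat]
  refine ENNReal.ofReal_le_ofReal ?_
  have : (0 : ℝ) ≤ 1 / 2 ^ d.natAbs := by positivity
  unfold U; linarith

theorem I_sub (s d : ℝ) : I s d ⊆ (fun v : ℝ => 2 * v - 0) ⁻¹' I 1 (d + s) ∪
    (fun v : ℝ => 2 * v - (d + s)) ⁻¹' I (-1) (d - s) := by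
  intro v hv
  by_contra h
  rw [mem_union, not_or] at h
  exact hv ((((not_infinite.1 h.1).image _).union ((not_infinite.1 h.2).image _)).subset
    (R_sub s d v))

noncomputable def m (s d : ℤ) : ℝ := volume.real (I s d)

theorem I_fin (s d : ℤ) (hs : s = 1 ∨ s = -1) : volume (I s d) ≠ ⊤ :=
  ((vol_I s d hs).trans_lt (by simp)).ne

theorem aff_fin (c : ℝ) {A : Set ℝ} (h : volume A ≠ ⊤) :
    volume ((fun v : ℝ => 2 * v - c) ⁻¹' A) ≠ ⊤ := by
  rw [vol_aff]; exact ENNReal.mul_ne_top ENNReal.ofReal_ne_top h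

theorem aff_real (c : ℝ) (A : Set ℝ) :
    volume.real ((fun v : ℝ => 2 * v - c) ⁻¹' A) = volume.real A / 2 := by
  rw [measureReal_def, vol_aff, ENNReal.toReal_mul, ENNReal.toReal_ofReal (by norm_num),
    measureReal_def]; ring

theorem m_le (s d : ℤ) (hs : s = 1 ∨ s = -1) : m s d ≤ 8 := by
  have := ENNReal.toReal_mono (by simp) (vol_I s d hs)
  simpa [m, measureReal_def] using this

theorem m_step (s d : ℤ) : m s d ≤ (m 1 (d + s) + m (-1) (d - s)) / 2 := by
  have f1 := I_fin 1 (d + s) (Or.inl rfl)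
  have f2 := I_fin (-1) (d - s) (Or.inr rfl)
  unfold m
  push_cast at f1 f2 ⊢
  refine (measureReal_mono (I_sub s d) (measure_union_ne_top (aff_fin _ f1) (aff_fin _ f2))).trans
    ((measureReal_union_le _ _).trans ?_)
  rw [aff_real, aff_real]; linarith

theorem m_pos : m 1 1 ≤ (m 1 3 + m (-1) 1 + m 1 (-1)) / 4 := by
  have f1 := I_fin 1 3 (Or.inl rfl)
  have f2 := I_fin (-1) 1 (Or.inr rfl)
  have f3 := I_fin 1 (-1) (Or.inl rfl)
  unfold m
  push_cast at f1 f2 f3 ⊢
  have : I 1 1 ⊆ ((fun v : ℝ => 2 * v - 0) ⁻¹' ((fun v : ℝ => 2 * v - 0) ⁻¹' I 1 3) ∪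
      (fun v : ℝ => 2 * v - 0) ⁻¹' ((fun v : ℝ => 2 * v - 3) ⁻¹' I (-1) 1)) ∪
      (fun v : ℝ => 2 * v - 2) ⁻¹' ((fun v : ℝ => 2 * v - 0) ⁻¹' I 1 (-1)) := by
    intro v hv
    rcases I_sub _ _ hv with h | h <;> rcases I_sub _ _ h with h | h <;>
      simp only [mem_preimage, mem_union] at h ⊢
    · left; left; convert h using 2; norm_num
    · left; right; convert h using 2 <;> norm_num
    · right; convert h using 2 <;> norm_num
    · left; right; convert h using 1
      · norm_num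
      · ring
  refine (measureReal_mono this (measure_union_ne_top (measure_union_ne_top
    (aff_fin _ (aff_fin _ f1)) (aff_fin _ (aff_fin _ f2))) (aff_fin _ (aff_fin _ f3)))).trans
    ((measureReal_union_le _ _).trans ((add_le_add (measureReal_union_le _ _) le_rfl).trans ?_))
  simp only [aff_real]; linarith

theorem m_neg : m (-1) 1 ≤ (m 1 1 + m (-1) (-1) + m (-1) 3) / 4 := by
  have f1 := I_fin 1 1 (Or.inl rfl)
  have f2 := I_fin (-1) (-1) (Or.inr rfl)
  have f3 := I_fin (-1) 3 (Or.inr rfl)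
  unfold m
  push_cast at f1 f2 f3 ⊢
  have : I (-1) 1 ⊆ ((fun v : ℝ => 2 * v - 0) ⁻¹' ((fun v : ℝ => 2 * v - 0) ⁻¹' I 1 1) ∪
      (fun v : ℝ => 2 * v - 0) ⁻¹' ((fun v : ℝ => 2 * v - 1) ⁻¹' I (-1) (-1))) ∪
      (fun v : ℝ => 2 * v - 0) ⁻¹' ((fun v : ℝ => 2 * v - 1) ⁻¹' I (-1) 3) := by
    intro v hv
    rcases I_sub _ _ hv with h | h <;> rcases I_sub _ _ h with h | h <;>
      simp only [mem_preimage, mem_union] at h ⊢
    · left; left; convert h using 2; norm_num
    · left; right; convert h using 2 <;> norm_num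
    · left; left; convert h using 2 <;> norm_num
    · right; convert h using 2 <;> norm_num
  refine (measureReal_mono this (measure_union_ne_top (measure_union_ne_top
    (aff_fin _ (aff_fin _ f1)) (aff_fin _ (aff_fin _ f2))) (aff_fin _ (aff_fin _ f3)))).trans
    ((measureReal_union_le _ _).trans ((add_le_add (measureReal_union_le _ _) le_rfl).trans ?_))
  simp only [aff_real]; linarith

theorem convex_le (a : ℤ → ℝ) (hb : ∀ d, a d ≤ 8) (h0 : ∀ d, 0 ≤ a d)
    (hc : ∀ d, a d ≤ (a (d + 1) + a (d - 1)) / 2) (d : ℤ) : a (d + 1) ≤ a d := by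
  by_contra hlt
  rw [not_le] at hlt
  have key : ∀ n : ℕ, a (d + 1) - a d ≤ a (d + n + 1) - a (d + n) ∧
      n * (a (d + 1) - a d) ≤ a (d + n) := by
    intro n
    induction n with
    | zero => simp [h0]
    | succ n ih =>
      have := hc (d + n + 1)
      rw [add_sub_cancel_right] at this
      push_cast
      rw [← add_assoc]
      constructor <;> linarith [ih.1, ih.2]
  obtain ⟨n, hn⟩ := exists_nat_gt (8 / (a (d + 1) - a d))
  rw [div_lt_iff₀ (by linarith)] at hn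
  linarith [(key n).2, hb (d + n)]

theorem m_zero : m 1 0 = 0 := by
  set a : ℤ → ℝ := fun d => max (m 1 d) (m (-1) d) with ha
  have l1 : ∀ d, m 1 d ≤ a d := fun d => le_max_left _ _
  have l2 : ∀ d, m (-1) d ≤ a d := fun d => le_max_right _ _
  have h0 : ∀ d, 0 ≤ a d := fun d => le_trans measureReal_nonneg (l1 d)
  have hb : ∀ d, a d ≤ 8 := fun d => max_le (m_le _ _ (Or.inl rfl)) (m_le _ _ (Or.inr rfl))
  have hc : ∀ d, a d ≤ (a (d + 1) + a (d - 1)) / 2 := fun d => by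
    refine max_le ?_ ?_
    · linarith [m_step 1 d, l1 (d + 1), l2 (d - 1)]
    · have := m_step (-1) d
      rw [sub_neg_eq_add, ← sub_eq_add_neg] at this
      linarith [l1 (d - 1), l2 (d + 1)]
  have u1 := convex_le a hb h0 hc
  have u2 := convex_le (fun d => a (-d)) (fun d => hb _) (fun d => h0 _) (fun d => by
    have := hc (-d)
    rw [show -(d + 1) = -d - 1 by ring, show -(d - 1) = -d + 1 by ring]; linarith)
  have b1 := u1 1
  have b2 := u1 2
  have b3 := u2 (-1)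
  have b4 := u2 0
  norm_num at b1 b2 b3 b4
  have : a 1 ≤ 3 / 4 * a 1 := max_le (by linarith [m_pos, l1 3, l2 1, l1 (-1)])
    (by linarith [m_neg, l1 1, l2 (-1), l2 3])
  exact le_antisymm (by linarith [l1 0, h0 1]) measureReal_nonneg

theorem I_null : volume (I 1 0) = 0 := by
  have h := m_zero
  have f := I_fin 1 0 (Or.inl rfl)
  unfold m at h
  push_cast at h f
  exact (measureReal_eq_zero_iff f).1 h

end Pool.Agent.H.MP_cc494f_an
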